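import Pool.Agent.Lib.MP_a2c890_nt.R.Fin
import Pool.Agent.Lib.MP_a2c890_nt.R.Cub

set_option autoImplicit false

namespace Pool.Agent.Results.MP_a2c890_nt.CubicHole

open MvPolynomial Pool.Agent.Lib.MP_a2c890_nt

theorem result (K : Type) [Field K] [NumberField K]
    (F G : MvPolynomial (Fin 2) K) (hF : F.IsHomogeneous 3) (hG : G.IsHomogeneous 3)
    (hFG : ∀ v : Fin 2 → AlgebraicClosure K, aeval v F = 0 → aeval v G = 0 → v = 0)
    (p : ℕ) [Fact p.Prime] (ι : K →+* PadicAlgCl p) (a b c e t : PadicAlgCl p)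
    (hdet : a * e - b * c ≠ 0) (ht : t ≠ 0) (P Q P₁ Q₁ : MvPolynomial (Fin 2) (PadicAlgCl p))
    (hP : aeval ![C a * X 0 + C b * X 1, C c * X 0 + C e * X 1] (map ι F) =
      C t * (C a * P + C b * Q))
    (hQ : aeval ![C a * X 0 + C b * X 1, C c * X 0 + C e * X 1] (map ι G) =
      C t * (C c * P + C e * Q))
    (hP₁ : P₁.IsHomogeneous 2) (hQ₁ : Q₁.IsHomogeneous 2)
    (hint : ∀ m : Fin 2 →₀ ℕ, ‖coeff m P₁‖ ≤ 1 ∧ ‖coeff m Q₁‖ ≤ 1)
    (hgood : ∀ v : Fin 2 → PadicAlgCl p, ‖v‖ = 1 →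
      ‖(![eval v P₁, eval v Q₁] : Fin 2 → PadicAlgCl p)‖ = 1)
    (h : Fin 2 → PadicAlgCl p) (hh : ‖h‖ = 1)
    (hred : ∀ m : Fin 2 →₀ ℕ, ‖coeff m (P - (C (h 1) * X 0 - C (h 0) * X 1) * P₁)‖ < 1 ∧
      ‖coeff m (Q - (C (h 1) * X 0 - C (h 0) * X 1) * Q₁)‖ < 1)
    (hhole : ∀ x : Fin 2 → PadicAlgCl p, ‖x‖ = 1 →
      (x = h ∨ ‖eval x (pderiv 0 P₁ * pderiv 1 Q₁ - pderiv 1 P₁ * pderiv 0 Q₁)‖ < 1) →
      ∀ n : ℕ, 0 < n →
        ‖(fun v : Fin 2 → PadicAlgCl p => ![eval v P₁, eval v Q₁])^[n] x 0 * h 1 -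
          (fun v : Fin 2 → PadicAlgCl p => ![eval v P₁, eval v Q₁])^[n] x 1 * h 0‖ = 1)
    (β : Fin 2 → K) (hβ : β ≠ 0)
    (hper : ∀ m : ℕ, 0 < m →
      eval β ((fun q : MvPolynomial (Fin 2) K × MvPolynomial (Fin 2) K =>
          (aeval ![q.1, q.2] F, aeval ![q.1, q.2] G))^[m] (X 0, X 1)).1 * β 1 ≠
      eval β ((fun q : MvPolynomial (Fin 2) K × MvPolynomial (Fin 2) K =>
          (aeval ![q.1, q.2] F, aeval ![q.1, q.2] G))^[m] (X 0, X 1)).2 * β 0) :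
    ∃ N : ℕ, ∀ n : ℕ, ∃ S : Finset (Fin 2 → AlgebraicClosure K), S.card ≤ N ∧
      ∀ v : Fin 2 → AlgebraicClosure K, v ≠ 0 →
        aeval v ((fun q : MvPolynomial (Fin 2) K × MvPolynomial (Fin 2) K =>
            (aeval ![q.1, q.2] F, aeval ![q.1, q.2] G))^[n] (X 0, X 1)).1 *
            algebraMap K (AlgebraicClosure K) (β 1) =
          aeval v ((fun q : MvPolynomial (Fin 2) K × MvPolynomial (Fin 2) K =>
            (aeval ![q.1, q.2] F, aeval ![q.1, q.2] G))^[n] (X 0, X 1)).2 *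
            algebraMap K (AlgebraicClosure K) (β 0) →
        ∃ s ∈ S, ∃ σ : AlgebraicClosure K ≃ₐ[K] AlgebraicClosure K,
          ∃ u : AlgebraicClosure K, u ≠ 0 ∧ v = u • (fun i => σ (s i)) := by
  have ev1 : ∀ (H : MvPolynomial (Fin 2) K) (v : Fin 2 → PadicAlgCl p),
      eval₂ ι (mv a b c e v) H =
        eval v (aeval ![C a * X 0 + C b * X 1, C c * X 0 + C e * X 1] (map ι H)) := fun H v => by
    rw [← aeval_eq_eval, comp_aeval_apply, aeval_eq_eval, ← eval₂_eq_eval_map]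
    congr 1
    ext i; fin_cases i <;> simp [mv]
  have hom : ∀ {H : MvPolynomial (Fin 2) K}, H.IsHomogeneous 3 →
      (aeval ![C a * X 0 + C b * X 1, C c * X 0 + C e * X 1] (map ι H) :
        MvPolynomial (Fin 2) (PadicAlgCl p)).IsHomogeneous 3 := fun hH =>
    (hH.map ι).aeval _ (n := 1) fun i => by
      fin_cases i <;> exact ((isHomogeneous_X _ 0).C_mul _).add ((isHomogeneous_X _ 1).C_mul _)
  have u : (C (t * (a * e - b * c))⁻¹ * (C t * (C a * C e - C b * C c)) :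
      MvPolynomial (Fin 2) (PadicAlgCl p)) = 1 := by
    simp only [← map_mul, ← map_sub]
    rw [inv_mul_cancel₀ (mul_ne_zero ht hdet), map_one]
  have hP3 : P.IsHomogeneous 3 := by
    have := (((hom hF).C_mul e).sub ((hom hG).C_mul b)).C_mul (t * (a * e - b * c))⁻¹
    rw [hP, hQ] at this
    exact (congrArg (IsHomogeneous · 3) (by linear_combination P * u)).mp this
  have hQ3 : Q.IsHomogeneous 3 := by
    have := (((hom hG).C_mul a).sub ((hom hF).C_mul c)).C_mul (t * (a * e - b * c))⁻¹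
    rw [hP, hQ] at this
    exact (congrArg (IsHomogeneous · 3) (by linear_combination Q * u)).mp this
  have lp : ∀ {A A₁ : MvPolynomial (Fin 2) (PadicAlgCl p)}, (∀ m, ‖coeff m A₁‖ ≤ 1) →
      (∀ m, ‖coeff m (A - (C (h 1) * X 0 - C (h 0) * X 1) * A₁)‖ < 1) →
      Lip 1 fun v => eval v A := fun h1 h2 =>
    ((Lip.eval zero_le_one _ fun m => (h2 m).le).add
      ((((Lip.const (co_le hh.le 1)).mul (Lip.co 0)).sub
        ((Lip.const (co_le hh.le 0)).mul (Lip.co 1))).mul (Lip.eval zero_le_one _ h1))).congr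
      fun v => by simp
  have L1 := lp (fun m => (hint m).1) fun m => (hred m).1
  have L2 := lp (fun m => (hint m).2) fun m => (hred m).2
  obtain ⟨N, hN⟩ := R.Glb.fin_main ⟨by norm_num, hF, hG, hFG, hβ⟩
    (fun m hm h => hper m hm (by
      rw [iter_pair, ← aeval_eq_eval, aeval_iter, aeval_iter]; exact sub_eq_zero.mp h))
    ι hdet ht (Ψ := fun v => ![eval v P, eval v Q])
    (fun v => by rw [ev1, ev1, hP, hQ]; ext i; fin_cases i <;> simp [mv])
    (fun v w hv hw => ⟨nv_le (L1.bd hv) (L2.bd hv), nv_le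
      (by simpa using (L1 v w hv hw).2) (by simpa using (L2 v w hv hw).2)⟩)
    fun ρ Fm => R.cub hP3 hQ3 hP₁ hQ₁ Fm hint hh hred hgood (hhole h hh (Or.inl rfl))
      fun x hx hc => hhole x hx (Or.inr hc)
  refine ⟨N, fun n => ?_⟩
  obtain ⟨S, h3, h4⟩ := hN n
  refine ⟨S, h3, fun v hv h => h4 v hv ?_⟩
  rw [iter_pair, aeval_iter, aeval_iter] at h
  exact sub_eq_zero.mpr h

end Pool.Agent.Results.MP_a2c890_nt.CubicHole
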