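import Pool.Agent.Lib.MP_a2c890_nt.IntG

set_option autoImplicit false

namespace Pool.Agent.Results.MP_a2c890_nt.IntegrableReduction

open MvPolynomial Pool.Agent.Lib.MP_a2c890_nt

theorem result (K : Type) [Field K] [NumberField K] (d : ℕ) (hd : IsPrimePow d)
    (F G : MvPolynomial (Fin 2) K) (hF : F.IsHomogeneous d) (hG : G.IsHomogeneous d)
    (hFG : ∀ v : Fin 2 → AlgebraicClosure K, aeval v F = 0 → aeval v G = 0 → v = 0)
    (p : ℕ) [Fact p.Prime] (ι : K →+* PadicAlgCl p) (a b c e t : PadicAlgCl p)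
    (hdet : a * e - b * c ≠ 0) (ht : t ≠ 0) (P Q P₀ Q₀ : MvPolynomial (Fin 2) (PadicAlgCl p))
    (hP : aeval ![C a * X 0 + C b * X 1, C c * X 0 + C e * X 1] (map ι F) =
      C t * (C a * P + C b * Q))
    (hQ : aeval ![C a * X 0 + C b * X 1, C c * X 0 + C e * X 1] (map ι G) =
      C t * (C c * P + C e * Q))
    (hred : ∀ m : Fin 2 →₀ ℕ, ‖coeff m (P - P₀)‖ < 1 ∧ ‖coeff m (Q - Q₀)‖ < 1)
    (hmod : (P₀ = X 0 ^ d ∧ Q₀ = X 1 ^ d) ∨ (P₀ = X 1 ^ d ∧ Q₀ = X 0 ^ d) ∨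
      (P₀ = (Polynomial.Chebyshev.C (PadicAlgCl p) d).homogenize d ∧ Q₀ = X 1 ^ d) ∨
      (P₀ = -(Polynomial.Chebyshev.C (PadicAlgCl p) d).homogenize d ∧ Q₀ = X 1 ^ d))
    (β : Fin 2 → K) (hβ : β ≠ 0)
    (hper : ∀ m : ℕ, 0 < m →
      eval β ((fun q : MvPolynomial (Fin 2) K × MvPolynomial (Fin 2) K =>
          (aeval ![q.1, q.2] F, aeval ![q.1, q.2] G))^[m] (X 0, X 1)).1 * β 1 ≠
      eval β ((fun q : MvPolynomial (Fin 2) K × MvPolynomial (Fin 2) K =>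
          (aeval ![q.1, q.2] F, aeval ![q.1, q.2] G))^[m] (X 0, X 1)).2 * β 0) :
    ∃ N : ℕ, ∀ n : ℕ, ∃ S : Finset (Fin 2 → AlgebraicClosure K), S.card ≤ N ∧
      ∀ v : Fin 2 → AlgebraicClosure K, v ≠ 0 →
        aeval v ((fun q : MvPolynomial (Fin 2) K × MvPolynomial (Fin 2) K =>
            (aeval ![q.1, q.2] F, aeval ![q.1, q.2] G))^[n] (X 0, X 1)).1 *
            algebraMap K (AlgebraicClosure K) (β 1) =
          aeval v ((fun q : MvPolynomial (Fin 2) K × MvPolynomial (Fin 2) K =>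
            (aeval ![q.1, q.2] F, aeval ![q.1, q.2] G))^[n] (X 0, X 1)).2 *
            algebraMap K (AlgebraicClosure K) (β 0) →
        ∃ s ∈ S, ∃ σ : AlgebraicClosure K ≃ₐ[K] AlgebraicClosure K,
          ∃ u : AlgebraicClosure K, u ≠ 0 ∧ v = u • (fun i => σ (s i)) := by
  obtain ⟨θ1, h1, L1⟩ := exists_theta _ fun m => (hred m).1
  obtain ⟨θ2, h2, L2⟩ := exists_theta _ fun m => (hred m).2
  replace L1 := L1.mono (le_max_left θ1 θ2)
  replace L2 := L2.mono (le_max_right θ1 θ2)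
  have ev1 : ∀ (H : MvPolynomial (Fin 2) K) (v : Fin 2 → PadicAlgCl p),
      eval₂ ι (mv a b c e v) H =
        eval v (aeval ![C a * X 0 + C b * X 1, C c * X 0 + C e * X 1] (map ι H)) := fun H v => by
    rw [← aeval_eq_eval, comp_aeval_apply, aeval_eq_eval, ← eval₂_eq_eval_map]
    congr 1
    ext i; fin_cases i <;> simp [mv]
  have ch : ∀ v : Fin 2 → PadicAlgCl p,
      eval v ((Polynomial.Chebyshev.C (PadicAlgCl p) d).homogenize d) = Dk 1 d v := fun v => by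
    rw [← Polynomial.dickson_one_one_eq_chebyshev_C, (eval_dickson 1 v d).2]
  obtain ⟨N, hN⟩ := core2 hd hF hG hFG ι hdet ht (max_lt h1 h2)
    (Ψ := fun v => ![eval v P, eval v Q])
    (fun v => by rw [ev1, ev1, hP, hQ]; ext i; fin_cases i <;> simp [mv])
    (by
      rcases hmod with ⟨rfl, rfl⟩ | ⟨rfl, rfl⟩ | ⟨rfl, rfl⟩ | ⟨rfl, rfl⟩
      · exact Or.inl ⟨L1.congr fun v => by simp, L2.congr fun v => by simp⟩
      · exact Or.inr (Or.inl ⟨L1.congr fun v => by simp, L2.congr fun v => by simp⟩)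
      · exact Or.inr (Or.inr (Or.inl ⟨L1.congr fun v => by simp [ch], L2.congr fun v => by simp⟩))
      · exact Or.inr (Or.inr (Or.inr ⟨L1.congr fun v => by simp [ch], L2.congr fun v => by simp⟩)))
    hβ (fun m hm h => hper m hm (by
      rw [iter_pair, ← aeval_eq_eval, aeval_iter, aeval_iter]; exact sub_eq_zero.mp h))
  refine ⟨N, fun n => ?_⟩
  obtain ⟨S, h3, h4⟩ := hN n
  refine ⟨S, h3, fun v hv h => h4 v hv ?_⟩
  rw [iter_pair, aeval_iter, aeval_iter] at h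
  exact sub_eq_zero.mpr h

end Pool.Agent.Results.MP_a2c890_nt.IntegrableReduction
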