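import Pool.Agent.Lib.MP_a2c890_nt.TFin

set_option autoImplicit false

namespace Pool.Agent.Results.MP_a2c890_nt.MixedPlace

open Polynomial Pool.Agent.Lib.MP_a2c890_nt

theorem result (K : Type) [Field K] [NumberField K] (φ : Polynomial K) (hd : 3 ≤ φ.natDegree)
    (p : ℕ) [Fact p.Prime] (hp : ¬ p ∣ φ.natDegree - 1) (ι : K →+* PadicAlgCl p)
    (a b : PadicAlgCl p) (ha : a ≠ 0) (g : Polynomial (PadicAlgCl p))
    (hg : (φ.map ι).comp (C a * X + C b) = C a * g + C b)
    (h0 : ‖g.coeff φ.natDegree‖ < 1) (h1 : ‖g.coeff (φ.natDegree - 1)‖ = 1)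
    (h2 : ∀ i, ‖g.coeff i‖ ≤ 1)
    (β : K) (hβ : ∀ m : ℕ, 0 < m → (fun x : K => φ.eval x)^[m] β ≠ β) :
    ∃ N : ℕ, ∀ n : ℕ, ∃ S : Finset (AlgebraicClosure K), S.card ≤ N ∧
      ∀ x : AlgebraicClosure K,
        (fun y : AlgebraicClosure K => aeval y φ)^[n] x = algebraMap K _ β →
        ∃ s ∈ S, ∃ σ : AlgebraicClosure K ≃ₐ[K] AlgebraicClosure K, x = σ s := by
  obtain ⟨e, he⟩ : ∃ e, φ.natDegree = e + 1 := ⟨φ.natDegree - 1, by omega⟩
  rw [he] at h0 h1 hp
  rw [Nat.add_sub_cancel] at h1 hp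
  have hl : (C a * X + C b).natDegree = 1 := natDegree_linear ha
  have d1 : g.natDegree = e + 1 := by
    have := congrArg natDegree hg
    rwa [natDegree_comp, hl, natDegree_map, natDegree_add_C, natDegree_C_mul ha, mul_one, he,
      eq_comm] at this
  have l1 : ι φ.leadingCoeff * a ^ e = g.coeff (e + 1) := by
    have := congrArg leadingCoeff hg
    rw [leadingCoeff_comp (by omega), leadingCoeff_map, leadingCoeff_linear ha, natDegree_map, he,
      leadingCoeff, leadingCoeff, natDegree_add_C, natDegree_C_mul ha, d1, coeff_add, coeff_C_mul,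
      coeff_C_succ, add_zero, pow_succ] at this
    exact mul_left_cancel₀ ha (by rw [← this, leadingCoeff]; ring)
  have g0 : 0 < ‖g.coeff (e + 1)‖ := norm_pos_iff.mpr (by
    rw [← d1]; exact leadingCoeff_ne_zero.mpr fun h => by rw [h, natDegree_zero] at d1; omega)
  have L : T.Loc g e ‖g.coeff (e + 1)‖⁻¹ := ⟨by omega, d1, (one_lt_inv₀ g0).mpr h0, (inv_inv _).symm,
    h1, h2, by
      rw [← map_natCast (algebraMap ℚ_[p] (PadicAlgCl p)), norm_algebraMap',
        Padic.norm_natCast_eq_one_iff]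
      exact (Nat.Prime.coprime_iff_not_dvd Fact.out).mpr hp⟩
  let _ := ι.toAlgebra
  let τ : AlgebraicClosure K →ₐ[K] PadicAlgCl p := IsAlgClosed.lift
  have hτ : (τ : AlgebraicClosure K →+* PadicAlgCl p).comp (algebraMap K _) = ι :=
    RingHom.ext fun x => τ.commutes x
  have hΦ : (fun y : AlgebraicClosure K => aeval y φ) = T.Phi φ :=
    funext fun y => (eval_map_algebraMap φ y).symm
  have it : ∀ m, (T.Phi φ)^[m] (algebraMap K _ β) =
      algebraMap K _ ((fun x : K => φ.eval x)^[m] β) := fun m => by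
    induction m with
    | zero => rfl
    | succ m ih =>
      rw [Function.iterate_succ_apply', Function.iterate_succ_apply', ih, T.Phi, eval_map,
        eval₂_at_apply]
  obtain ⟨N, hN⟩ := T.fin_main (ι := (τ : AlgebraicClosure K →+* PadicAlgCl p)) (b := b) (β := β)
    L he ha
    (fun x => by
      have := congrArg (eval x) hg
      simp only [eval_comp, eval_add, eval_mul, eval_C, eval_X] at this
      rw [hτ, this, add_sub_cancel_right, mul_div_cancel_left₀ _ ha])
    (by rw [inv_inv, ← l1, norm_mul, norm_pow, ← hτ]; rfl)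
    fun m hm h => hβ m hm ((algebraMap K (AlgebraicClosure K)).injective (by rw [← it, h]))
  refine ⟨N, fun n => ?_⟩
  obtain ⟨S, a1, a2⟩ := hN n
  refine ⟨S, a1, fun x hx => ?_⟩
  obtain ⟨s, b1, b2⟩ := a2 x (hΦ ▸ hx)
  obtain ⟨σ, b3⟩ := T.mem_orb.mp b2
  exact ⟨s, b1, σ, b3.symm⟩

end Pool.Agent.Results.MP_a2c890_nt.MixedPlace
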