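import Pool.Agent.Lib.MP_a2c890_nt.Q2.Fin

set_option autoImplicit false

namespace Pool.Agent.Results.MP_a2c890_nt.QuadraticMaps

open MvPolynomial Pool.Agent.Lib.MP_a2c890_nt

theorem result (K : Type) [Field K] [NumberField K]
    (F G : MvPolynomial (Fin 2) K) (hF : F.IsHomogeneous 2) (hG : G.IsHomogeneous 2)
    (hFG : ∀ v : Fin 2 → AlgebraicClosure K, aeval v F = 0 → aeval v G = 0 → v = 0)
    (p : ℕ) [Fact p.Prime] (hp : p ≠ 2) (ι : K →+* PadicAlgCl p)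
    (u w : Fin 2 → PadicAlgCl p) (hu : u ≠ 0) (hw : w ≠ 0) (μ ν a b : PadicAlgCl p)
    (fu : eval₂ ι u F = μ * u 0 ∧ eval₂ ι u G = μ * u 1)
    (fw : eval₂ ι w F = ν * w 0 ∧ eval₂ ι w G = ν * w 1)
    (ju : eval₂ ι u (pderiv 0 F * pderiv 1 G - pderiv 1 F * pderiv 0 G) = 2 * μ ^ 2 * a)
    (jw : eval₂ ι w (pderiv 0 F * pderiv 1 G - pderiv 1 F * pderiv 0 G) = 2 * ν ^ 2 * b)
    (ha : ‖a‖ = 1) (hb : 1 < ‖b‖)
    (β : Fin 2 → K) (hβ : β ≠ 0)
    (hper : ∀ m : ℕ, 0 < m →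
      eval β ((fun q : MvPolynomial (Fin 2) K × MvPolynomial (Fin 2) K =>
          (aeval ![q.1, q.2] F, aeval ![q.1, q.2] G))^[m] (X 0, X 1)).1 * β 1 ≠
      eval β ((fun q : MvPolynomial (Fin 2) K × MvPolynomial (Fin 2) K =>
          (aeval ![q.1, q.2] F, aeval ![q.1, q.2] G))^[m] (X 0, X 1)).2 * β 0) :
    ∃ N : ℕ, ∀ n : ℕ, ∃ S : Finset (Fin 2 → AlgebraicClosure K), S.card ≤ N ∧
      ∀ v : Fin 2 → AlgebraicClosure K, v ≠ 0 →
        aeval v ((fun q : MvPolynomial (Fin 2) K × MvPolynomial (Fin 2) K =>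
            (aeval ![q.1, q.2] F, aeval ![q.1, q.2] G))^[n] (X 0, X 1)).1 *
            algebraMap K (AlgebraicClosure K) (β 1) =
          aeval v ((fun q : MvPolynomial (Fin 2) K × MvPolynomial (Fin 2) K =>
            (aeval ![q.1, q.2] F, aeval ![q.1, q.2] G))^[n] (X 0, X 1)).2 *
            algebraMap K (AlgebraicClosure K) (β 0) →
        ∃ s ∈ S, ∃ σ : AlgebraicClosure K ≃ₐ[K] AlgebraicClosure K,
          ∃ t : AlgebraicClosure K, t ≠ 0 ∧ v = t • (fun i => σ (s i)) := by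
  obtain ⟨N, hN⟩ := Q2.mixed hF hG hFG hp ι hu hw (μ := μ) (ν := ν)
    (by ext i; fin_cases i; exacts [fu.1, fu.2]) (by ext i; fin_cases i; exacts [fw.1, fw.2])
    ju jw ha hb hβ (fun m hm h => hper m hm (by
      rw [iter_pair, ← aeval_eq_eval, aeval_iter, aeval_iter]; exact sub_eq_zero.mp h))
  refine ⟨N, fun n => ?_⟩
  obtain ⟨S, h3, h4⟩ := hN n
  refine ⟨S, h3, fun v hv h => h4 v hv ?_⟩
  rw [iter_pair, aeval_iter, aeval_iter] at h
  exact sub_eq_zero.mpr h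

end Pool.Agent.Results.MP_a2c890_nt.QuadraticMaps
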